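import Mathlib
import Pool.Agent.D0H11.GF.Stm

/-!
# GF, module 6: the number of solutions of `a b = c d`
-/

set_option autoImplicit false
set_option linter.all false

open Finset

namespace Pool.Agent.D0H21.GF

/-- the pairs with `x y ≤ M` -/
def hyp (M : ℕ) : Finset (ℕ × ℕ) := (Icc 1 M ×ˢ Icc 1 M).filter fun p => p.1 * p.2 ≤ M

theorem hyp_card (M : ℕ) : ((hyp M).card : ℝ) ≤ M * (1 + Real.log M) := by
  have h1 : (hyp M).card = ∑ x ∈ Icc 1 M, ((Icc 1 M).filter fun y => x * y ≤ M).card := by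
    unfold hyp
    rw [Finset.card_filter, Finset.sum_product]
    refine Finset.sum_congr rfl fun x _ => ?_
    rw [Finset.card_filter]
  have h2 : ∀ x ∈ Icc 1 M, (((Icc 1 M).filter fun y => x * y ≤ M).card : ℝ) ≤ M * (x : ℝ)⁻¹ := by
    intro x hx
    rw [mem_Icc] at hx
    have hx0 : (0 : ℝ) < x := by exact_mod_cast hx.1
    have h3 : ((Icc 1 M).filter fun y => x * y ≤ M) ⊆ Icc 1 (M / x) := by
      intro y hy
      rw [mem_filter, mem_Icc] at hy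
      rw [mem_Icc, Nat.le_div_iff_mul_le hx.1]
      exact ⟨hy.1.1, by rw [mul_comm]; exact hy.2⟩
    have h4 := Finset.card_le_card h3
    rw [Nat.card_Icc, Nat.add_sub_cancel] at h4
    calc (((Icc 1 M).filter fun y => x * y ≤ M).card : ℝ) ≤ ((M / x : ℕ) : ℝ) := by exact_mod_cast h4
      _ ≤ (M : ℝ) / x := Nat.cast_div_le
      _ = _ := by rw [div_eq_mul_inv]
  rw [h1]
  push_cast
  refine (Finset.sum_le_sum h2).trans ?_
  rw [← Finset.mul_sum]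
  refine mul_le_mul_of_nonneg_left ?_ (Nat.cast_nonneg _)
  have h5 := harmonic_le_one_add_log M
  rw [harmonic_eq_sum_Icc] at h5
  push_cast at h5
  exact h5

theorem four_num (a b c d : ℕ) (hc : c ≠ 0) (h : a * b = c * d) :
    ∃ x y z w : ℕ, a = x * y ∧ b = z * w ∧ c = x * z ∧ d = y * w := by
  have h1 : c ∣ a * b := ⟨d, h⟩
  obtain ⟨x, z, ⟨y, hy⟩, ⟨w, hw⟩, hxz⟩ := exists_dvd_and_dvd_of_dvd_mul h1
  refine ⟨x, y, z, w, hy, hw, hxz, ?_⟩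
  have h2 : c * d = c * (y * w) := by
    rw [← h, hy, hw, hxz]
    ring
  exact Nat.eq_of_mul_eq_mul_left (Nat.pos_of_ne_zero hc) h2

theorem zero_card (M : ℕ) :
    ((Icc (-(M : ℤ)) M ×ˢ Icc (-(M : ℤ)) M).filter fun p : ℤ × ℤ => p.1 * p.2 = 0).card ≤ 2 * (2 * M + 1) := by
  have h1 : ((Icc (-(M : ℤ)) M ×ˢ Icc (-(M : ℤ)) M).filter fun p : ℤ × ℤ => p.1 * p.2 = 0) ⊆
      (({0} : Finset ℤ) ×ˢ Icc (-(M : ℤ)) M) ∪ (Icc (-(M : ℤ)) M ×ˢ ({0} : Finset ℤ)) := by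
    intro p hp
    rw [mem_filter, mem_product] at hp
    rw [mem_union, mem_product, mem_product, mem_singleton, mem_singleton]
    rcases mul_eq_zero.1 hp.2 with h | h
    · exact Or.inl ⟨h, hp.1.2⟩
    · exact Or.inr ⟨hp.1.1, h⟩
  refine (Finset.card_le_card h1).trans ((Finset.card_union_le _ _).trans ?_)
  rw [card_product, card_product, card_singleton, Int.card_Icc]
  omega

/-- the signs -/
def sg : Finset ((ℤ × ℤ) × (ℤ × ℤ)) := (({-1, 1} : Finset ℤ) ×ˢ ({-1, 1} : Finset ℤ)) ×ˢ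
  (({-1, 1} : Finset ℤ) ×ˢ ({-1, 1} : Finset ℤ))

theorem sg_card : sg.card = 16 := by decide

/-- the parametrisation -/
def par (x : ((ℤ × ℤ) × (ℤ × ℤ)) × ((ℕ × ℕ) × (ℕ × ℕ))) : (ℤ × ℤ) × (ℤ × ℤ) :=
  ((x.1.1.1 * ((x.2.1.1 * x.2.1.2 : ℕ) : ℤ), x.1.1.2 * ((x.2.2.1 * x.2.2.2 : ℕ) : ℤ)),
    (x.1.2.1 * ((x.2.1.1 * x.2.2.1 : ℕ) : ℤ), x.1.2.2 * ((x.2.1.2 * x.2.2.2 : ℕ) : ℤ)))

theorem sign_mem (a : ℤ) (ha : a ≠ 0) : ∃ s ∈ ({-1, 1} : Finset ℤ), a = s * (a.natAbs : ℤ) := by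
  rcases Int.natAbs_eq a with h | h
  · exact ⟨1, by simp, by rw [one_mul]; exact h⟩
  · refine ⟨-1, by simp, ?_⟩
    rw [neg_one_mul]
    exact h

theorem abcd_card (M : ℕ) :
    ((((Icc (-(M : ℤ)) M ×ˢ Icc (-(M : ℤ)) M) ×ˢ (Icc (-(M : ℤ)) M ×ˢ Icc (-(M : ℤ)) M)).filter
    (fun p : (ℤ × ℤ) × (ℤ × ℤ) => p.1.1 * p.1.2 = p.2.1 * p.2.2)).card) ≤
      (2 * (2 * M + 1)) * (2 * (2 * M + 1)) + 16 * ((hyp M).card * (hyp M).card) := by
  obtain ⟨Z, hZ⟩ : ∃ Z, Z = ((Icc (-(M : ℤ)) M ×ˢ Icc (-(M : ℤ)) M).filter fun p : ℤ × ℤ => p.1 * p.2 = 0) := ⟨_, rfl⟩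
  have hsub : (((Icc (-(M : ℤ)) M ×ˢ Icc (-(M : ℤ)) M) ×ˢ (Icc (-(M : ℤ)) M ×ˢ Icc (-(M : ℤ)) M)).filter
      (fun p : (ℤ × ℤ) × (ℤ × ℤ) => p.1.1 * p.1.2 = p.2.1 * p.2.2)) ⊆
      (Z ×ˢ Z) ∪ (sg ×ˢ (hyp M ×ˢ hyp M)).image par := by
    rintro ⟨⟨a, b⟩, ⟨c, d⟩⟩ hp
    simp only [mem_filter, mem_product] at hp
    obtain ⟨⟨⟨ha, hb⟩, ⟨hc, hd⟩⟩, he⟩ := hp
    rw [mem_union]
    by_cases h0 : a * b = 0
    · left
      rw [mem_product, hZ, mem_filter, mem_filter, mem_product, mem_product]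
      exact ⟨⟨⟨ha, hb⟩, h0⟩, ⟨⟨hc, hd⟩, by rw [← he]; exact h0⟩⟩
    · right
      have ha0 : a ≠ 0 := left_ne_zero_of_mul h0
      have hb0 : b ≠ 0 := right_ne_zero_of_mul h0
      have hc0 : c ≠ 0 := left_ne_zero_of_mul (he ▸ h0)
      have hd0 : d ≠ 0 := right_ne_zero_of_mul (he ▸ h0)
      have he' : a.natAbs * b.natAbs = c.natAbs * d.natAbs := by
        rw [← Int.natAbs_mul, ← Int.natAbs_mul, he]
      obtain ⟨x, y, z, w, h1, h2, h3, h4⟩ := four_num _ _ _ _ (Int.natAbs_ne_zero.2 hc0) he'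
      obtain ⟨s1, hs1, e1⟩ := sign_mem a ha0
      obtain ⟨s2, hs2, e2⟩ := sign_mem b hb0
      obtain ⟨s3, hs3, e3⟩ := sign_mem c hc0
      obtain ⟨s4, hs4, e4⟩ := sign_mem d hd0
      have haM : a.natAbs ≤ M := by rw [mem_Icc] at ha; omega
      have hbM : b.natAbs ≤ M := by rw [mem_Icc] at hb; omega
      have ha1 : a.natAbs ≠ 0 := Int.natAbs_ne_zero.2 ha0
      have hb1 : b.natAbs ≠ 0 := Int.natAbs_ne_zero.2 hb0
      rw [h1] at ha1 haM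
      rw [h2] at hb1 hbM
      have hx0 : 0 < x := Nat.pos_of_ne_zero (left_ne_zero_of_mul ha1)
      have hy0 : 0 < y := Nat.pos_of_ne_zero (right_ne_zero_of_mul ha1)
      have hz0 : 0 < z := Nat.pos_of_ne_zero (left_ne_zero_of_mul hb1)
      have hw0 : 0 < w := Nat.pos_of_ne_zero (right_ne_zero_of_mul hb1)
      have hxy : (x, y) ∈ hyp M := by
        unfold hyp
        simp only [mem_filter, mem_product, mem_Icc]
        refine ⟨⟨⟨hx0, ?_⟩, ⟨hy0, ?_⟩⟩, haM⟩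
        · exact (Nat.le_mul_of_pos_right x hy0).trans haM
        · exact (Nat.le_mul_of_pos_left y hx0).trans haM
      have hzw : (z, w) ∈ hyp M := by
        unfold hyp
        simp only [mem_filter, mem_product, mem_Icc]
        refine ⟨⟨⟨hz0, ?_⟩, ⟨hw0, ?_⟩⟩, hbM⟩
        · exact (Nat.le_mul_of_pos_right z hw0).trans hbM
        · exact (Nat.le_mul_of_pos_left w hz0).trans hbM
      rw [mem_image]
      refine ⟨(((s1, s2), (s3, s4)), ((x, y), (z, w))), ?_, ?_⟩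
      · rw [mem_product, mem_product]
        refine ⟨?_, hxy, hzw⟩
        unfold sg
        simp only [mem_product]
        exact ⟨⟨hs1, hs2⟩, ⟨hs3, hs4⟩⟩
      · unfold par
        simp only
        rw [← h1, ← h2, ← h3, ← h4, ← e1, ← e2, ← e3, ← e4]
  refine (Finset.card_le_card hsub).trans ((Finset.card_union_le _ _).trans ?_)
  refine Nat.add_le_add ?_ ?_
  · rw [card_product, hZ]
    exact Nat.mul_le_mul (zero_card M) (zero_card M)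
  · refine Finset.card_image_le.trans ?_
    rw [card_product, card_product, sg_card]

theorem log_ge (M : ℕ) (hM : 2 ≤ M) : 1 ≤ 2 * Real.log M := by
  have h1 : Real.log 2 ≤ Real.log M := Real.log_le_log (by norm_num) (by exact_mod_cast hM)
  have h2 := Real.log_two_gt_d9
  linarith

theorem t_ABCD : Pool.Agent.D0H11.GF.S_ABCD := by
  refine ⟨1000, 2, by norm_num, fun M hM => ?_⟩
  have h1 := abcd_card M
  have h2 := hyp_card M
  have h3 := log_ge M hM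
  have hM' : (2 : ℝ) ≤ M := by exact_mod_cast hM
  obtain ⟨Λ, hΛ⟩ : ∃ Λ : ℝ, Λ = Real.log M := ⟨_, rfl⟩
  rw [← hΛ] at h2 h3 ⊢
  have hΛ0 : 0 ≤ Λ := by linarith
  have h4 : ((hyp M).card : ℝ) ≤ M * (3 * Λ) := by
    refine h2.trans (mul_le_mul_of_nonneg_left (by linarith) (by linarith))
  have h5 : ((hyp M).card : ℝ) * (hyp M).card ≤ (M * (3 * Λ)) * (M * (3 * Λ)) :=
    mul_le_mul h4 h4 (Nat.cast_nonneg _) (by positivity)
  have h6 : ((2 * (2 * M + 1) : ℝ)) * (2 * (2 * M + 1)) ≤ 36 * (M : ℝ) ^ 2 := by nlinarith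
  have h7 : 36 * (M : ℝ) ^ 2 ≤ 36 * (M : ℝ) ^ 2 * (2 * Λ) ^ 2 := by
    have : 1 ≤ (2 * Λ) ^ 2 := one_le_pow₀ h3
    have h8 : 0 ≤ 36 * (M : ℝ) ^ 2 := by positivity
    nlinarith
  refine le_trans (by exact_mod_cast h1 : _ ≤ ((2 * (2 * M + 1) : ℝ)) * (2 * (2 * M + 1)) +
    16 * (((hyp M).card : ℝ) * (hyp M).card)) ?_
  have h9 : 0 ≤ (M : ℝ) ^ 2 * Λ ^ 2 := by positivity
  nlinarith

end Pool.Agent.D0H21.GF
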