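import Mathlib
import Pool.Agent.D0H11.GF.Stm

/-!
# GF, module 7: `u² - v² + u'² - v'² = e`
-/

set_option autoImplicit false
set_option linter.all false

open Finset

namespace Pool.Agent.D0H21.GF

/-- number of points of a finite set with a given value -/
theorem corr (P : Finset (ℤ × ℤ)) (q : ℤ × ℤ → ℤ) (e : ℤ) :
    ((P ×ˢ P).filter fun p => q p.1 + q p.2 = e).card ≤ ((P ×ˢ P).filter fun p => q p.1 = q p.2).card := by
  obtain ⟨r, hr⟩ : ∃ r : ℤ → ℕ, r = fun f => (P.filter fun p => q p = f).card := ⟨_, rfl⟩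
  have hrf : ∀ f, r f = (P.filter fun p => q p = f).card := fun f => by rw [hr]
  have h1 : ((P ×ˢ P).filter fun p => q p.1 + q p.2 = e).card = ∑ f ∈ P.image q, r f * r (e - f) := by
    rw [Finset.card_filter, Finset.sum_product,
      ← Finset.sum_fiberwise_of_maps_to (s := P) (t := P.image q) (g := q) fun x hx => mem_image_of_mem q hx]
    refine Finset.sum_congr rfl fun f _ => ?_
    have e1 : ∀ p ∈ P.filter (fun p => q p = f), (∑ y ∈ P, if q p + q y = e then 1 else 0) = r (e - f) := by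
      intro p hp
      rw [mem_filter] at hp
      rw [← Finset.card_filter, hrf]
      congr 1
      refine Finset.filter_congr fun p' _ => ?_
      rw [hp.2]
      constructor <;> intro h <;> linarith
    rw [Finset.sum_congr rfl e1, Finset.sum_const, smul_eq_mul, hrf f]
  have h2 : ((P ×ˢ P).filter fun p => q p.1 = q p.2).card = ∑ f ∈ P.image q, r f * r f := by
    rw [Finset.card_filter, Finset.sum_product,
      ← Finset.sum_fiberwise_of_maps_to (s := P) (t := P.image q) (g := q) fun x hx => mem_image_of_mem q hx]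
    refine Finset.sum_congr rfl fun f _ => ?_
    have e1 : ∀ p ∈ P.filter (fun p => q p = f), (∑ y ∈ P, if q p = q y then 1 else 0) = r f := by
      intro p hp
      rw [mem_filter] at hp
      rw [← Finset.card_filter, hrf]
      congr 1
      refine Finset.filter_congr fun p' _ => ?_
      rw [hp.2]
      exact eq_comm
    rw [Finset.sum_congr rfl e1, Finset.sum_const, smul_eq_mul, ← hrf f]
  have h3 : ∑ f ∈ P.image q, r (e - f) * r (e - f) ≤ ∑ f ∈ P.image q, r f * r f := by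
    have h4 : ∑ f ∈ P.image q, r (e - f) * r (e - f) = ∑ g ∈ (P.image q).image fun f => e - f, r g * r g := by
      refine (Finset.sum_image (s := P.image q) (g := fun f => e - f) (f := fun g => r g * r g) ?_).symm
      intro a _ b _ hab
      simpa using hab
    rw [h4, ← Finset.sum_filter_add_sum_filter_not ((P.image q).image fun f => e - f) fun g => g ∈ P.image q]
    have h5 : ∑ g ∈ ((P.image q).image fun f => e - f).filter (fun g => ¬ g ∈ P.image q), r g * r g = 0 := by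
      refine Finset.sum_eq_zero fun g hg => ?_
      rw [mem_filter] at hg
      have : r g = 0 := by
        rw [hrf, Finset.card_eq_zero, Finset.filter_eq_empty_iff]
        intro p hp h
        exact hg.2 (mem_image.2 ⟨p, hp, h⟩)
      rw [this, mul_zero]
    rw [h5, add_zero]
    refine Finset.sum_le_sum_of_subset fun g hg => ?_
    exact (mem_filter.1 hg).2
  have h6 : 2 * ∑ f ∈ P.image q, r f * r (e - f) ≤
      (∑ f ∈ P.image q, r f * r f) + ∑ f ∈ P.image q, r (e - f) * r (e - f) := by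
    rw [Finset.mul_sum, ← Finset.sum_add_distrib]
    refine Finset.sum_le_sum fun f _ => ?_
    zify
    nlinarith [sq_nonneg ((r f : ℤ) - r (e - f))]
  rw [h1, h2]
  omega

theorem sq_abcd (M : ℕ) :
    (((Icc (-(M : ℤ)) M ×ˢ Icc (-(M : ℤ)) M) ×ˢ (Icc (-(M : ℤ)) M ×ˢ Icc (-(M : ℤ)) M)).filter
      (fun p : (ℤ × ℤ) × (ℤ × ℤ) => p.1.1 ^ 2 - p.1.2 ^ 2 = p.2.1 ^ 2 - p.2.2 ^ 2)).card ≤
    (((Icc (-((2 * M : ℕ) : ℤ)) ((2 * M : ℕ) : ℤ) ×ˢ Icc (-((2 * M : ℕ) : ℤ)) ((2 * M : ℕ) : ℤ)) ×ˢ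
      (Icc (-((2 * M : ℕ) : ℤ)) ((2 * M : ℕ) : ℤ) ×ˢ Icc (-((2 * M : ℕ) : ℤ)) ((2 * M : ℕ) : ℤ))).filter
      (fun p : (ℤ × ℤ) × (ℤ × ℤ) => p.1.1 * p.1.2 = p.2.1 * p.2.2)).card := by
  refine Finset.card_le_card_of_injOn
    (fun p => ((p.1.1 - p.1.2, p.1.1 + p.1.2), (p.2.1 - p.2.2, p.2.1 + p.2.2))) ?_ ?_
  · rintro ⟨⟨a, b⟩, ⟨c, d⟩⟩ hp
    simp only [coe_filter, mem_product, mem_Icc, Set.mem_setOf_eq] at hp ⊢
    obtain ⟨⟨⟨⟨h1, h2⟩, ⟨h3, h4⟩⟩, ⟨⟨h5, h6⟩, ⟨h7, h8⟩⟩⟩, h9⟩ := hp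
    push_cast
    refine ⟨⟨⟨⟨?_, ?_⟩, ⟨?_, ?_⟩⟩, ⟨⟨?_, ?_⟩, ⟨?_, ?_⟩⟩⟩, ?_⟩ <;> linarith
  · rintro ⟨⟨a, b⟩, ⟨c, d⟩⟩ _ ⟨⟨a', b'⟩, ⟨c', d'⟩⟩ _ h
    simp only [Prod.mk.injEq] at h ⊢
    obtain ⟨⟨h1, h2⟩, ⟨h3, h4⟩⟩ := h
    refine ⟨⟨?_, ?_⟩, ⟨?_, ?_⟩⟩ <;> linarith

theorem t_SQ4 (h : Pool.Agent.D0H11.GF.S_ABCD) : Pool.Agent.D0H11.GF.S_SQ4 := by
  obtain ⟨C, E, hC, h⟩ := h
  refine ⟨4 * C * 2 ^ E, E, by positivity, fun M e hM => ?_⟩
  have h1 := corr (Icc (-(M : ℤ)) M ×ˢ Icc (-(M : ℤ)) M) (fun p => p.1 ^ 2 - p.2 ^ 2) e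
  have h2 := sq_abcd M
  have h3 := h (2 * M) (by omega)
  have h4 : ((((Icc (-(M : ℤ)) M ×ˢ Icc (-(M : ℤ)) M) ×ˢ (Icc (-(M : ℤ)) M ×ˢ Icc (-(M : ℤ)) M)).filter
    (fun p : (ℤ × ℤ) × (ℤ × ℤ) => p.1.1 ^ 2 - p.1.2 ^ 2 + (p.2.1 ^ 2 - p.2.2 ^ 2) = e)).card : ℝ) ≤
    C * ((2 * M : ℕ) : ℝ) ^ 2 * Real.log ((2 * M : ℕ) : ℝ) ^ E := by
    refine le_trans ?_ h3
    exact_mod_cast h1.trans h2
  refine h4.trans ?_
  have hM' : (2 : ℝ) ≤ M := by exact_mod_cast hM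
  have hl2 : 0 ≤ Real.log M := Real.log_nonneg (by linarith)
  have h5 : Real.log ((2 * M : ℕ) : ℝ) ≤ 2 * Real.log M := by
    push_cast
    rw [Real.log_mul (by norm_num) (by linarith)]
    have := Real.log_le_log (by norm_num) hM'
    linarith
  have h6 : 0 ≤ Real.log ((2 * M : ℕ) : ℝ) := Real.log_nonneg (by push_cast; linarith)
  calc C * ((2 * M : ℕ) : ℝ) ^ 2 * Real.log ((2 * M : ℕ) : ℝ) ^ E ≤
      C * ((2 * M : ℕ) : ℝ) ^ 2 * (2 * Real.log M) ^ E :=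
        mul_le_mul_of_nonneg_left (pow_le_pow_left₀ h6 h5 E) (by positivity)
    _ = 4 * C * 2 ^ E * (M : ℝ) ^ 2 * Real.log M ^ E := by
      push_cast
      rw [mul_pow]
      ring

end Pool.Agent.D0H21.GF
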